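import Pool.Agent.V8H18.ExpIPOne
import Pool.Agent.V8H18.ExpIPTwo

/-!
# Exponential IP sets in finite partitions of `ℕ`

* Type I: already for two cells (and for every number `r ≥ 2` of cells) there is a partition of `ℕ`
  none of whose cells is an exponential IP set of type I.
* Type II: in every partition of `ℕ` into finitely many cells, some cell is an exponential IP set
  of type II.

Together these answer both questions, for both types.

**Type I.** The colour of `n` is `G (log₂ (log₂ n))`. Along two interleaved towers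
`P = 5, 7, 2^5+1, 2^7+3, ...` the function `G` runs cyclically through the four patterns
`0, θ, 1, 1 - θ`, where `θ z` is the parity of `⌊z / 2⌋`; consecutive patterns agree around `P n`,
so that `G (log₂ w)` is the opposite of the pattern used near `w`. The set `FE^I(X)` consists of
the numbers `x i ^ ∏_{j ∈ J} x j`, `i < J`, of colour `G (log₂ w i + ∑_{j ∈ J} w j)`, where
`w i = log₂ (x i)`. Choosing `J` so that the sum is close to a multiple of `4` gives a
contradiction (see `Pool/Agent/V8H18/ExpIPOne.lean`).

**Type II.** Let `ψ k` be the limit colour of `m ^ k` as `m` tends to infinity along a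
nonprincipal ultrafilter. By Hales-Jewett, the piecewise syndetic sets of `(ℕ+, *)` have the
property that for all `z_1, ..., z_N` and all `d_1, ..., d_n` (`n` large) the elements `a` of such a
set `L` with `a * z_l ^ d` in `L` for all `l` form again a piecewise syndetic set, for some finite
sum `d` of the `d_i`; by Hindman's theorem, all finite sums of the `d_i` can be taken in `L`. So
one can construct `x 0 < x 1 < ...`, of the form `m ^ k` with `k ∈ L`, step by step (see
`Pool/Agent/V8H18/ExpIPTwo.lean`).
-/

set_option autoImplicit false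

namespace Pool.Agent.Results.MP_952e1b_co.ExponentialIPSets

/-- `FE^I_n(X)` for the infinite set `X = {x 0 < x 1 < x 2 < ...}`. -/
def FEI (x : ℕ → ℕ) : ℕ → Set ℕ
  | 0 => {x 0}
  | n + 1 => {z | ∃ y ∈ FEI x n, z = y ^ x (n + 1)} ∪ FEI x n ∪ {x (n + 1)}

/-- `FE^II_n(X)` for the infinite set `X = {x 0 < x 1 < x 2 < ...}`. -/
def FEII (x : ℕ → ℕ) : ℕ → Set ℕ
  | 0 => {x 0}
  | n + 1 => {z | ∃ y ∈ FEII x n, z = x (n + 1) ^ y} ∪ FEII x n ∪ {x (n + 1)}

/-- `C` is an exponential IP set of type I: it contains `FE^I(X)` for some infinite set `X` of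
natural numbers (given by its increasing enumeration). -/
def IsExpIPI (C : Set ℕ) : Prop :=
  ∃ x : ℕ → ℕ, StrictMono x ∧ ∀ n, FEI x n ⊆ C

/-- `C` is an exponential IP set of type II: it contains `FE^II(X)` for some infinite set `X` of
natural numbers (given by its increasing enumeration). -/
def IsExpIPII (C : Set ℕ) : Prop :=
  ∃ x : ℕ → ℕ, StrictMono x ∧ ∀ n, FEII x n ⊆ C

lemma FEI_eq (x : ℕ → ℕ) (n : ℕ) : FEI x n = Pool.Agent.V8H18.ExpIPOne.FEI x n := by
  induction n with
  | zero => rfl
  | succ n ih =>
    show {z | ∃ y ∈ FEI x n, z = y ^ x (n + 1)} ∪ FEI x n ∪ {x (n + 1)} = _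
    rw [ih]
    rfl

lemma FEII_eq (x : ℕ → ℕ) (n : ℕ) : FEII x n = Pool.Agent.V8H18.ExpIPTwo.FEII x n := by
  induction n with
  | zero => rfl
  | succ n ih =>
    show {z | ∃ y ∈ FEII x n, z = x (n + 1) ^ y} ∪ FEII x n ∪ {x (n + 1)} = _
    rw [ih]
    rfl

/-- Type I: for every `r ≥ 2` there is a partition of the natural numbers into `r` nonempty cells
(the fibres of a surjective map `c`) none of which is an exponential IP set of type I.
Type II: for every partition of the natural numbers into `r` cells (the fibres of `c`), some cell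
is an exponential IP set of type II. -/
theorem result :
    (∀ r : ℕ, 2 ≤ r → ∃ c : ℕ → Fin r, Function.Surjective c ∧
      ∀ i : Fin r, ¬ IsExpIPI {n | c n = i}) ∧
    (∀ (r : ℕ) (c : ℕ → Fin r), ∃ i : Fin r, IsExpIPII {n | c n = i}) := by
  constructor
  · intro r hr
    obtain ⟨c, hc, h⟩ := Pool.Agent.V8H18.ExpIPOne.main r hr
    refine ⟨c, hc, fun i hi => h i ?_⟩
    obtain ⟨x, hx, hxC⟩ := hi
    exact ⟨x, hx, fun n => by rw [← FEI_eq]; exact hxC n⟩
  · intro r c
    obtain ⟨i, x, hx, hxC⟩ := Pool.Agent.V8H18.ExpIPTwo.exists_isExpIPII c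
    exact ⟨i, x, hx, fun n => by rw [FEII_eq]; exact hxC n⟩

end Pool.Agent.Results.MP_952e1b_co.ExponentialIPSets
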